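import Pool.Agent.Lib.MP_a85771_al.L2Bound
import Pool.Agent.Lib.MP_a85771_al.Betti

set_option autoImplicit false

open Pool.Agent.Lib.MP_a85771_al

namespace Pool.Agent.Results.MP_a85771_al.BSFreeProduct

/-- Evaluation of a 1-cochain on the translates of the relator loop. -/
noncomputable def relOp : L2 (GG × Fin 3) →L[ℂ] L2 GG :=
  pull (fun g => (g, 1)) (fun _ _ e => by simpa using e) +
    pull (fun g => (g * gen 1, 0)) (fun _ _ e => by simpa using e) -
    pull (fun g => (g, 0)) (fun _ _ e => by simpa using e) -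
    pull (fun g => (g * gen 0, 0)) (fun _ _ e => by simpa using e) -
    pull (fun g => (g * gen 0 * gen 0, 1)) (fun _ _ e => by simpa using e)

theorem relOp_apply (ω : L2 (GG × Fin 3)) (g : GG) :
    relOp ω g = ω (g, 1) + ω (g * gen 1, 0) - ω (g, 0) - ω (g * gen 0, 0) -
      ω (g * gen 0 * gen 0, 1) := rfl

theorem relOp_lam (k : GG) (f : L2 (GG × Fin 3)) (g : GG) : relOp (lam k f) g = relOp f (k * g) := by
  simp [relOp_apply, mul_assoc]

theorem relOp_exact (ω : L2 (GG × Fin 3)) (h : relOp ω = 0) :
    ∃ F : GG → ℂ, ∀ g i, ω (g, i) = F (g * gen i) - F g := by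
  apply exact_GG (fun p => ω p)
  intro g
  have : relOp ω g = 0 := by rw [h]; rfl
  rw [relOp_apply] at this
  linear_combination this

/-- There is a torsion-free, finitely generated, residually finite group with positive first
`L²`-Betti number and bounded virtual gap `b₁ - b₁⁽²⁾` which is neither free nor a hyperbolic surface
group. The witness is the free product of `BS(1,2)` with an infinite cyclic group. -/
theorem result :
    ∃ (G : Type) (_ : Group G),
      (∀ g : G, g ≠ 1 → ¬ IsOfFinOrder g) ∧ Group.FG G ∧ Group.ResiduallyFinite G ∧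
      (∀ (n : ℕ) (s : Fin n → G), Subgroup.closure (Set.range s) = ⊤ → 0 < b1L2 s) ∧
      (∃ C : ℝ, ∀ H : Subgroup G, H.FiniteIndex → ∀ (n : ℕ) (s : Fin n → H),
        Subgroup.closure (Set.range s) = ⊤ → (b1 H : ℝ) - b1L2 s ≤ C) ∧
      ¬ IsFreeGroup G ∧ ¬ IsHyperbolicSurfaceGroup G := by
  refine ⟨GG, inferInstance, torsionFree_GG, ?_, residuallyFinite_GG, ?_, ⟨1, ?_⟩, not_free_GG,
    not_surface_GG⟩
  · exact Group.fg_iff.mpr ⟨Set.range gen, gen_closure, Set.finite_range _⟩
  · intro n s hs
    have := b1L2_lower_self gen gen_closure relOp relOp_lam relOp_exact s hs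
    simp only [Fintype.card_fin] at this
    norm_num at this
    linarith
  · intro H hH n s hs
    have h1 := b1L2_lower gen gen_closure relOp relOp_lam relOp_exact H s hs
    have h2 : (b1 H : ℝ) ≤ H.index + 1 := by exact_mod_cast b1_le H
    simp only [Fintype.card_fin] at h1
    norm_num at h1
    linarith

end Pool.Agent.Results.MP_a85771_al.BSFreeProduct
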